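import Mathlib

/-!
# MP_755a2c_co, Q1: disproof, for every `k ≥ 1`

Vertices of a circular drawing are `0, 1, …, n-1` (`Fin n`) in their order around the circle.
A segment with end points `v_i`, `v_j`, `i < j`, is the pair `(i, j)`.

For every `k ≥ 1` the graph on `6k+1` cyclically arranged vertices in which two vertices are
adjacent when their cyclic distance is at most `k+1` is circular `k`-matching-planar, but every
triangulation of the outer cycle has a segment pierced by `2k ≥ k+1` pairwise independent edges.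
-/

namespace Pool.Agent.Results.MP_755a2c_co.HeavyDiagonal

/-- The segments `v_i v_j`, `i < j`, between the `n` vertices placed around the circle. -/
abbrev Seg (n : ℕ) := {p : Fin n × Fin n // p.1 < p.2}

/-- Two segments cross: no common end point, and the end points alternate around the circle. -/
def Cross {n : ℕ} (s t : Seg n) : Prop :=
  (s.1.1 < t.1.1 ∧ t.1.1 < s.1.2 ∧ s.1.2 < t.1.2) ∨
  (t.1.1 < s.1.1 ∧ s.1.1 < t.1.2 ∧ t.1.2 < s.1.2)

/-- Two segments are independent: they share no end point. -/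
def Indep {n : ℕ} (s t : Seg n) : Prop :=
  s.1.1 ≠ t.1.1 ∧ s.1.1 ≠ t.1.2 ∧ s.1.2 ≠ t.1.1 ∧ s.1.2 ≠ t.1.2

/-- The segment `s` is an edge of `G`. -/
def IsEdge {n : ℕ} (G : SimpleGraph (Fin n)) (s : Seg n) : Prop := G.Adj s.1.1 s.1.2

/-- `PiercedBy G t m`: the set of edges of `G` that cross the segment `t` contains `m` pairwise
independent edges (a matching of size `m`). -/
def PiercedBy {n : ℕ} (G : SimpleGraph (Fin n)) (t : Seg n) (m : ℕ) : Prop :=
  ∃ M : Finset (Seg n), M.card = m ∧ (∀ e ∈ M, IsEdge G e ∧ Cross e t) ∧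
    ∀ e ∈ M, ∀ f ∈ M, e ≠ f → Indep e f

/-- The circular drawing of `G` (vertices in the order `0, 1, …, n-1`) is `k`-matching-planar. -/
def KMatchingPlanar {n : ℕ} (G : SimpleGraph (Fin n)) (k : ℕ) : Prop :=
  ∀ e : Seg n, IsEdge G e → ¬ PiercedBy G e (k + 1)

/-- The sides `v_i v_{i+1}` and `v_n v_1` of the outer cycle. -/
def IsSide {n : ℕ} (s : Seg n) : Prop :=
  (s.1.2 : ℕ) = (s.1.1 : ℕ) + 1 ∨ ((s.1.1 : ℕ) = 0 ∧ (s.1.2 : ℕ) + 1 = n)

/-- `T` is a triangulation of the outer cycle: all sides together with an inclusion-maximal set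
of pairwise non-crossing diagonals. -/
def IsTriangulation {n : ℕ} (T : Set (Seg n)) : Prop :=
  ∃ D : Set (Seg n),
    Maximal (fun D' : Set (Seg n) => (∀ d ∈ D', ¬ IsSide d) ∧ ∀ d ∈ D', ∀ d' ∈ D', ¬ Cross d d') D ∧
    T = {s | IsSide s} ∪ D

/-! ### Triangulations -/

theorem not_cross_side {n : ℕ} {s t : Seg n} (hs : IsSide s) : ¬ Cross s t := by
  obtain ⟨⟨a, b⟩, hab⟩ := s
  obtain ⟨⟨c, d⟩, hcd⟩ := t
  simp only [IsSide, Cross, Fin.lt_def] at *
  have := a.2; have := b.2; have := c.2; have := d.2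
  omega

theorem cross_symm {n : ℕ} {s t : Seg n} (h : Cross s t) : Cross t s := by
  unfold Cross at *
  tauto

theorem noncross {n : ℕ} {T : Set (Seg n)} (hT : IsTriangulation T) {s t : Seg n} (hs : s ∈ T)
    (ht : t ∈ T) : ¬ Cross s t := by
  obtain ⟨D, hD, rfl⟩ := hT
  rcases hs with hs | hs
  · exact not_cross_side hs
  rcases ht with ht | ht
  · exact fun h => not_cross_side ht (cross_symm h)
  exact hD.prop.2 s hs t ht

theorem not_cross_self {n : ℕ} (s : Seg n) : ¬ Cross s s := by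
  unfold Cross
  rintro (⟨h, -, -⟩ | ⟨h, -, -⟩) <;> exact lt_irrefl _ h

theorem mem_of_noncross {n : ℕ} {T : Set (Seg n)} (hT : IsTriangulation T) {s : Seg n}
    (h : ∀ t ∈ T, ¬ Cross s t) : s ∈ T := by
  obtain ⟨D, hD, rfl⟩ := hT
  by_cases hs : IsSide s
  · exact Or.inl hs
  refine Or.inr ?_
  have h1 : (∀ d ∈ insert s D, ¬ IsSide d) ∧ ∀ d ∈ insert s D, ∀ d' ∈ insert s D, ¬ Cross d d' := by
    refine ⟨?_, ?_⟩
    · rintro d (rfl | hd)
      · exact hs
      · exact hD.prop.1 d hd
    · rintro d (rfl | hd) d' (rfl | hd')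
      · exact not_cross_self _
      · exact h d' (Or.inr hd')
      · exact fun hc => h d (Or.inr hd) (cross_symm hc)
      · exact hD.prop.2 d hd d' hd'
  exact hD.le_of_ge h1 (Set.subset_insert s D) (Set.mem_insert s D)

/-- membership predicate with natural number arguments -/
def Mem {n : ℕ} (T : Set (Seg n)) (a b : ℕ) : Prop :=
  ∃ (ha : a < n) (hb : b < n) (hab : a < b), (⟨(⟨a, ha⟩, ⟨b, hb⟩), hab⟩ : Seg n) ∈ T

theorem Mem.noncross {n : ℕ} {T : Set (Seg n)} (hT : IsTriangulation T) {a b c d : ℕ}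
    (h : Mem T a b) (h' : Mem T c d) : ¬ (a < c ∧ c < b ∧ b < d) := by
  obtain ⟨ha, hb, hab, h⟩ := h
  obtain ⟨hc, hd, hcd, h'⟩ := h'
  intro hh
  exact HeavyDiagonal.noncross hT h h' (Or.inl hh)

theorem Mem.side {n : ℕ} {T : Set (Seg n)} (hT : IsTriangulation T) {a : ℕ}
    (h : a + 1 < n) : Mem T a (a + 1) := by
  obtain ⟨D, hD, rfl⟩ := hT
  exact ⟨by omega, h, by omega, Or.inl (Or.inl rfl)⟩

theorem Mem.outer {n : ℕ} {T : Set (Seg n)} (hT : IsTriangulation T) (h : 2 ≤ n) :
    Mem T 0 (n - 1) := by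
  obtain ⟨D, hD, rfl⟩ := hT
  refine ⟨by omega, by omega, by omega, Or.inl (Or.inr ⟨rfl, ?_⟩)⟩
  show n - 1 + 1 = n
  omega

theorem Mem.of_noncross {n : ℕ} {T : Set (Seg n)} (hT : IsTriangulation T) {a b : ℕ} (hab : a < b)
    (hb : b < n) (h : ∀ c d, Mem T c d → ¬ (a < c ∧ c < b ∧ b < d) ∧ ¬ (c < a ∧ a < d ∧ d < b)) :
    Mem T a b := by
  refine ⟨by omega, hb, hab, mem_of_noncross hT ?_⟩
  rintro ⟨⟨c, d⟩, hcd⟩ ht hc
  have hm : Mem T c d := ⟨c.2, d.2, hcd, ht⟩
  have := h c d hm
  rcases hc with hc | hc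
  · exact this.1 hc
  · exact this.2 hc

/-- Every segment of a triangulation that is not of the form `(i, i+1)` has a triangle on its
inner side. -/
theorem triangle {n : ℕ} {T : Set (Seg n)} (hT : IsTriangulation T) {i j : ℕ} (h : Mem T i j)
    (hij : i + 2 ≤ j) : ∃ m, i < m ∧ m < j ∧ Mem T i m ∧ Mem T m j := by
  classical
  have hj : j < n := h.2.1
  have hex : ∃ m, (i < m ∧ m < j) ∧ Mem T i m := ⟨i + 1, by omega, Mem.side hT (by omega)⟩
  -- largest such m
  obtain ⟨m, hm, hmax⟩ : ∃ m, ((i < m ∧ m < j) ∧ Mem T i m) ∧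
      ∀ m', ((i < m' ∧ m' < j) ∧ Mem T i m') → m' ≤ m := by
    have hfin : Set.Finite {m | (i < m ∧ m < j) ∧ Mem T i m} :=
      (Set.finite_Iio j).subset (fun m hm => hm.1.2)
    obtain ⟨m, hm⟩ := hfin.exists_maximal hex
    refine ⟨m, hm.prop, fun m' hm' => ?_⟩
    by_contra hlt
    exact hlt (hm.le_of_ge hm' (by omega))
  refine ⟨m, hm.1.1, hm.1.2, hm.2, ?_⟩
  refine Mem.of_noncross hT hm.1.2 hj ?_
  intro c d hcd
  have h1 := Mem.noncross hT h hcd
  have h2 := Mem.noncross hT hcd h
  have h3 := Mem.noncross hT hm.2 hcd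
  have h4 := Mem.noncross hT hcd hm.2
  have hcd' : c < d := hcd.2.2.1
  refine ⟨fun h5 => by omega, fun h5 => ?_⟩
  have hci : c = i := by omega
  subst hci
  have := hmax d ⟨⟨by omega, h5.2.2⟩, hcd⟩
  omega

/-- A triangulation of a polygon with `n ≥ 3L - 2` sides has a segment with at least `L` sides of
the polygon on either side. -/
theorem long {n L : ℕ} (hL : 1 ≤ L) (hn : 3 * L ≤ n + 2) (hn2 : 2 ≤ n) (hLn : L + 1 ≤ n)
    {T : Set (Seg n)} (hT : IsTriangulation T) :
    ∃ i j, Mem T i j ∧ i + L ≤ j ∧ j + L ≤ n + i := by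
  classical
  have hex : ∃ d, L ≤ d ∧ ∃ i, Mem T i (i + d) :=
    ⟨n - 1, by omega, 0, by simpa using Mem.outer hT hn2⟩
  obtain ⟨d, ⟨hd, i, hi⟩, hmin⟩ : ∃ d, (L ≤ d ∧ ∃ i, Mem T i (i + d)) ∧
      ∀ d', d' < d → ¬ (L ≤ d' ∧ ∃ i, Mem T i (i + d')) :=
    ⟨Nat.find hex, Nat.find_spec hex, fun d' hd' => Nat.find_min hex hd'⟩
  refine ⟨i, i + d, hi, by omega, ?_⟩
  by_cases h2 : d ≤ 1
  · omega
  obtain ⟨m, h3, h4, h5, h6⟩ := triangle hT hi (by omega)
  have h7 := hmin (m - i) (by omega)
  have h8 := hmin (i + d - m) (by omega)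
  have h9 : ¬ L ≤ m - i := fun h => h7 ⟨h, i, by rwa [show i + (m - i) = m by omega]⟩
  have h10 : ¬ L ≤ i + d - m := fun h => h8 ⟨h, m, by rwa [show m + (i + d - m) = i + d by omega]⟩
  omega

/-! ### The graph -/

/-- Two of the `6k+1` vertices around the circle are adjacent when their cyclic distance is at
most `k+1`. -/
def circ (k : ℕ) : SimpleGraph (Fin (6 * k + 1)) where
  Adj a b := a ≠ b ∧ ((a : ℕ) ≤ b + (k + 1) ∧ (b : ℕ) ≤ a + (k + 1) ∨
    6 * k + 1 ≤ (a : ℕ) - b + (b - a) + (k + 1))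
  symm := by
    constructor
    rintro a b ⟨h1, h2⟩
    exact ⟨h1.symm, by omega⟩
  loopless := ⟨fun a h => h.1 rfl⟩

theorem circ_planar (k : ℕ) : KMatchingPlanar (circ k) k := by
  classical
  rintro ⟨⟨a, b⟩, hab⟩ he ⟨M, hcard, hM, hind⟩
  simp only [Fin.lt_def] at hab
  have ha := a.2
  have hb := b.2
  have hcase : (b : ℕ) ≤ a + (k + 1) ∨ 6 * k + 1 ≤ (b : ℕ) - a + (k + 1) := by
    have h := he.2
    simp only at h
    omega
  rcases hcase with hc | hc
  · -- the short arc is the open interval `(a, b)`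
    have key : M.card ≤ (Finset.Ioo (a : ℕ) b).card := by
      refine Finset.card_le_card_of_injOn
        (fun f => if (f.1.1 : ℕ) ≤ a then (f.1.2 : ℕ) else (f.1.1 : ℕ)) ?_ ?_
      · intro f hf
        have h := (hM f hf).2
        simp only [Cross, Fin.lt_def] at h
        simp only [Finset.coe_Ioo, Set.mem_Ioo]
        split_ifs <;> omega
      · intro f hf g hg hfg
        by_contra hne
        have h := hind f hf g hg hne
        simp only [Indep, ne_eq, Fin.ext_iff] at h
        simp only at hfg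
        split_ifs at hfg <;> omega
    rw [Nat.card_Ioo, hcard] at key
    omega
  · -- the short arc is the complement of the closed interval `[a, b]`
    have key : M.card ≤ (Finset.range (6 * k - (b - a))).card := by
      refine Finset.card_le_card_of_injOn
        (fun f => if (f.1.1 : ℕ) < a then (f.1.1 : ℕ) else (f.1.2 : ℕ) - (b - a + 1)) ?_ ?_
      · intro f hf
        have h := (hM f hf).2
        have := f.1.1.2
        have := f.1.2.2
        simp only [Cross, Fin.lt_def] at h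
        simp only [Finset.coe_range, Set.mem_Iio]
        split_ifs <;> omega
      · intro f hf g hg hfg
        by_contra hne
        have h := hind f hf g hg hne
        have h1 := (hM f hf).2
        have h2 := (hM g hg).2
        simp only [Cross, Fin.lt_def] at h1 h2
        simp only [Indep, ne_eq, Fin.ext_iff] at h
        simp only at hfg
        split_ifs at hfg <;> omega
    rw [Finset.card_range, hcard] at key
    omega

/-- The segment between two different vertices given by natural numbers. -/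
def mk {n : ℕ} (x y : ℕ) (hx : x < n) (hy : y < n) (h : x ≠ y) : Seg n :=
  if h' : x < y then ⟨(⟨x, hx⟩, ⟨y, hy⟩), h'⟩ else ⟨(⟨y, hy⟩, ⟨x, hx⟩), by
    simp only [Fin.mk_lt_mk]; omega⟩

theorem circ_pierced (k i j : ℕ) (hi : i + (2 * k + 1) ≤ j) (hj : j < 6 * k + 1)
    (hij : j + (2 * k + 1) ≤ (6 * k + 1) + i) (h : i < j) :
    PiercedBy (circ k) ⟨(⟨i, by omega⟩, ⟨j, hj⟩), h⟩ (2 * k) := by
  classical
  -- inner and outer end points of the `2k` edges
  let inn : ℕ → ℕ := fun s => if s < k then i + 1 + s else j + k - 1 - s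
  let out : ℕ → ℕ := fun s => if s < k then (if k ≤ i + s then i + s - k else i + s + 5 * k + 1)
    else (if j + 2 * k - s ≤ 6 * k then j + 2 * k - s else j + 2 * k - s - (6 * k + 1))
  have hinn : ∀ s, s < 2 * k → i < inn s ∧ inn s < j := by
    intro s hs
    simp only [inn]
    split_ifs <;> omega
  have hout : ∀ s, s < 2 * k → out s < 6 * k + 1 ∧ (out s < i ∨ j < out s) := by
    intro s hs
    simp only [out]
    split_ifs <;> omega
  have hinj1 : ∀ s t, s < 2 * k → t < 2 * k → s ≠ t → inn s ≠ inn t := by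
    intro s t hs ht hst
    simp only [inn]
    split_ifs <;> omega
  have hinj2 : ∀ s t, s < 2 * k → t < 2 * k → s ≠ t → out s ≠ out t := by
    intro s t hs ht hst
    simp only [out]
    split_ifs <;> omega
  let F : Fin (2 * k) → Seg (6 * k + 1) := fun s =>
    mk (inn s) (out s) (by have := hinn s s.2; omega) (hout s s.2).1
      (by have := hinn s s.2; have := hout s s.2; omega)
  have hF : ∀ s : Fin (2 * k), ((((F s).1.1 : ℕ) = inn s ∧ ((F s).1.2 : ℕ) = out s) ∧
      inn s < out s) ∨ ((((F s).1.1 : ℕ) = out s ∧ ((F s).1.2 : ℕ) = inn s) ∧ out s < inn s) := by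
    intro s
    have h1 := hinn s s.2
    have h2 := hout s s.2
    simp only [F, mk]
    split_ifs with h'
    · exact Or.inl ⟨⟨rfl, rfl⟩, h'⟩
    · exact Or.inr ⟨⟨rfl, rfl⟩, by omega⟩
  have hindF : ∀ s t : Fin (2 * k), s ≠ t → Indep (F s) (F t) := by
    intro s t hst
    have hst' : (s : ℕ) ≠ t := fun h => hst (Fin.ext h)
    have h1 := hinn s s.2
    have h2 := hout s s.2
    have h3 := hinn t t.2
    have h4 := hout t t.2
    have h5 := hinj1 s t s.2 t.2 hst'
    have h6 := hinj2 s t s.2 t.2 hst'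
    have h7 := hF s
    have h8 := hF t
    simp only [Indep, ne_eq, Fin.ext_iff]
    omega
  have hFinj : Function.Injective F := by
    intro s t hst
    by_contra hne
    have := hindF s t hne
    rw [hst] at this
    exact this.1 rfl
  refine ⟨Finset.univ.image F, ?_, ?_, ?_⟩
  · rw [Finset.card_image_of_injective _ hFinj, Finset.card_univ, Fintype.card_fin]
  · intro e he
    obtain ⟨s, -, rfl⟩ := Finset.mem_image.1 he
    have h1 := hinn s s.2
    have h2 := hout s s.2
    have h7 := hF s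
    refine ⟨?_, ?_⟩
    · have h9 : inn s + (k + 1) = out s ∨ out s + (k + 1) = inn s ∨
          inn s + 5 * k = out s ∨ out s + 5 * k = inn s := by
        have := s.2
        simp only [inn, out]
        split_ifs <;> omega
      refine ⟨?_, ?_⟩
      · simp only [ne_eq, Fin.ext_iff]
        omega
      · omega
    · simp only [Cross, Fin.lt_def]
      omega
  · intro e he f hf hef
    obtain ⟨s, -, rfl⟩ := Finset.mem_image.1 he
    obtain ⟨t, -, rfl⟩ := Finset.mem_image.1 hf
    exact hindF s t (fun h => hef (by rw [h]))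

theorem PiercedBy.mono {n : ℕ} {G : SimpleGraph (Fin n)} {t : Seg n} {m m' : ℕ} (h : PiercedBy G t m)
    (hm : m' ≤ m) : PiercedBy G t m' := by
  obtain ⟨M, h1, h2, h3⟩ := h
  obtain ⟨M', hM', hc⟩ := Finset.exists_subset_card_eq (h1.symm ▸ hm : m' ≤ M.card)
  exact ⟨M', hc, fun e he => h2 e (hM' he), fun e he f hf hef => h3 e (hM' he) f (hM' hf) hef⟩

/-- **Q1 fails for every `k ≥ 1`.** For every `k ≥ 1` there are `n ≥ 3` and a graph `G` on the
vertices `0, …, n-1`, placed in this order around a circle, whose circular drawing is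
`k`-matching-planar, while every triangulation of the outer cycle has a segment that is pierced by
`k+1`, and even by `2k`, pairwise independent edges of `G`. -/
theorem result (k : ℕ) (hk : 1 ≤ k) :
    ∃ n, 3 ≤ n ∧ ∃ G : SimpleGraph (Fin n), KMatchingPlanar G k ∧
      ∀ T : Set (Seg n), IsTriangulation T →
        ∃ t ∈ T, PiercedBy G t (k + 1) ∧ PiercedBy G t (2 * k) := by
  refine ⟨6 * k + 1, by omega, circ k, circ_planar k, ?_⟩
  intro T hT
  obtain ⟨i, j, ⟨hi, hj, hij, hmem⟩, h1, h2⟩ :=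
    long (n := 6 * k + 1) (L := 2 * k + 1) (by omega) (by omega) (by omega) (by omega) hT
  have h := circ_pierced k i j h1 hj (by omega) hij
  exact ⟨_, hmem, h.mono (by omega), h⟩

end Pool.Agent.Results.MP_755a2c_co.HeavyDiagonal
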